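import Pool.Agent.helper78.NLS.Spec

set_option autoImplicit false

open Complex Metric Set Filter Topology MeasureTheory MPS
open Pool.Agent.helper98.ILF Pool.Agent.helper16.Multibrot

noncomputable section

namespace NLS

theorem EPS (hERR : ERR_stmt) (hDEL : DEL_stmt) : EPS_stmt := by
  intro n c m μ hn hc hμ hμ1 hμ4 hm hlim hinv j
  have hE : ∀ k, _ := fun k => hERR n c 5 (m k) hn hc (by norm_num) (hm k).1 (hm k).2.1 (hm k).2.2
  induction j with
  | zero =>
    have h0 : ∀ k, eLpNorm (db (gg n c (m k) 0)) 2 volume = 0 := by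
      intro k
      have h1 : gg n c (m k) 0 = fun _ => c := funext (hE k).2.1
      have h2 : db (gg n c (m k) 0) = fun _ => 0 := by
        rw [h1]
        funext z
        simp [db]
      rw [h2]
      exact eLpNorm_zero'
    simp only [h0]
    exact tendsto_const_nhds
  | succ j ih =>
    have h1 := hDEL n c m μ hn hc hμ hμ1 hμ4 (fun k => ⟨(hm k).1, (hm k).2.2⟩) hlim hinv j
    have h2 := h1.add ih
    rw [add_zero] at h2
    exact tendsto_of_tendsto_of_tendsto_of_le_of_le tendsto_const_nhds h2 (fun _ => zero_le)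
      (fun k => (hE k).2.2.2.2.2 j)

end NLS
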